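import Pool.Agent.Q170.SS.Main

/-!
# A composition operator which is strictly singular but not compact

There is a Banach space `E` of analytic functions on the unit disc, containing all polynomials
as a dense subspace, on which the composition operator with symbol `z ↦ z ^ 2` is bounded and
strictly singular, but not compact.
-/

set_option autoImplicit false

namespace Pool.Agent.Results.MP_628ecd_an.StrictlySingularComposition

open Q170.SS

theorem result : ∃ (E : Type) (_ : NormedAddCommGroup E) (_ : NormedSpace ℂ E)
    (_ : CompleteSpace E) (J : E → ℂ → ℂ) (T : E →L[ℂ] E), IsAnalyticSpace E J ∧
      PolynomialsDense E J ∧ IsCompositionOperator J (fun z => z ^ 2) T ∧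
      StrictlySingular T ∧ ¬ IsCompactOperator T :=
  main

end Pool.Agent.Results.MP_628ecd_an.StrictlySingularComposition
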